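import Mathlib

set_option autoImplicit false

/-!
# The Sigma-Leopoldt conjecture for a character: definitions
-/

namespace Pool.Agent.W289.SL

open NumberField TensorProduct

/-- `L` is Iwasawa's `p`-adic logarithm on `ℂ_p` (normalised by `L p = 0`; the value at `0` is
irrelevant). -/
structure IsIwasawaLog (p : ℕ) [Fact p.Prime] (L : ℂ_[p] → ℂ_[p]) : Prop where
  mul : ∀ x y : ℂ_[p], x ≠ 0 → y ≠ 0 → L (x * y) = L x + L y
  prime : L ((p : ℕ) : ℂ_[p]) = 0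
  ser : ∀ z : ℂ_[p], ‖z‖ < 1 →
    HasSum (fun n : ℕ => (-1 : ℂ_[p]) ^ n * z ^ (n + 1) / ((n : ℂ_[p]) + 1)) (L (1 + z))

section

variable (p : ℕ) [Fact p.Prime] (H : Type) [Field H] [NumberField H]

/-- `ℂ_p ⊗ 𝓞_H^×` -/
abbrev UM : Type := ℂ_[p] ⊗[ℤ] Additive (𝓞 H)ˣ

variable {H}

/-- the map on units induced by a ring endomorphism of `H`, written additively -/
noncomputable def unitHom (f : H →+* H) : Additive (𝓞 H)ˣ →+ Additive (𝓞 H)ˣ :=
  MonoidHom.toAdditive (Units.map (RingOfIntegers.mapRingHom f).toMonoidHom)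

/-- the `ℂ_p`-linear extension of `unitHom` -/
noncomputable def actLin (f : H →+* H) : UM p H →ₗ[ℂ_[p]] UM p H :=
  (unitHom f).toIntLinearMap.baseChange ℂ_[p]

variable {p}

/-- `u ↦ L (σ u)` on units -/
noncomputable def logHom {L : ℂ_[p] → ℂ_[p]} (hL : IsIwasawaLog p L) (σ : H →+* ℂ_[p]) :
    Additive (𝓞 H)ˣ →+ ℂ_[p] where
  toFun u := L (σ ((Additive.toMul u : (𝓞 H)ˣ) : 𝓞 H))
  map_zero' := by
    have h := hL.mul 1 1 one_ne_zero one_ne_zero
    rw [mul_one] at h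
    have h2 : L 1 = 0 := left_eq_add.1 h
    simpa using h2
  map_add' u v := by
    rw [toMul_add, Units.val_mul, ← hL.mul]
    · congr 1
      rw [← map_mul]
      rfl
    · rw [Ne, map_eq_zero]
      simp
    · rw [Ne, map_eq_zero]
      simp

/-- the `ℂ_p`-linear extension of `u ↦ L (σ u)` -/
noncomputable def logLin {L : ℂ_[p] → ℂ_[p]} (hL : IsIwasawaLog p L) (σ : H →+* ℂ_[p]) :
    UM p H →ₗ[ℂ_[p]] ℂ_[p] :=
  (logHom hL σ).toIntLinearMap.liftBaseChange ℂ_[p]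

end

/-- `S` is a CM type of `K` (with values in `ℂ_p`), for the quadratic extension `K/F`:
`Hom(K, ℂ_p)` is the disjoint union of `S` and `S ∘ c`, where `c` is the nontrivial
automorphism of `K` over `F`. -/
def IsCMType (p : ℕ) [Fact p.Prime] (F K : Type) [Field F] [Field K] [Algebra F K]
    (S : Set (K →+* ℂ_[p])) : Prop :=
  ∀ c : K ≃ₐ[F] K, c ≠ 1 → ∀ σ : K →+* ℂ_[p], σ ∈ S ↔ σ.comp (c : K →+* K) ∉ S

/-- The `S`-Leopoldt statement for a character `χ` of `Gal(H/K)`: the map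
`x ↦ (log_p (σ x))_σ`, where `σ` runs through the embeddings `H → ℂ_p` whose restriction to `K`
lies in `S`, is injective on the `χ`-part of `ℂ_p ⊗ 𝓞_H^×`. -/
def SigmaLeopoldt (p : ℕ) [Fact p.Prime] (K H : Type) [Field K] [Field H] [NumberField H]
    [Algebra K H] (S : Set (K →+* ℂ_[p])) (χ : (H ≃ₐ[K] H) →* ℂ_[p]ˣ) : Prop :=
  ∀ (L : ℂ_[p] → ℂ_[p]) (hL : IsIwasawaLog p L) (x : UM p H),
    (∀ τ : H ≃ₐ[K] H, actLin p (τ : H →+* H) x = ((χ τ : ℂ_[p]ˣ) : ℂ_[p]) • x) →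
    (∀ σ : H →+* ℂ_[p], σ.comp (algebraMap K H) ∈ S → logLin hL σ x = 0) → x = 0

end Pool.Agent.W289.SL
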