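import Mathlib
import Pool.Agent.H8.LD.PLog

set_option autoImplicit false

/-!
# Embeddings into `ℂ_p`
-/

namespace Pool.Agent.W289.SL

open NumberField

variable {p : ℕ} [hp : Fact p.Prime]

/-- integral elements have norm at most one -/
lemma norm_le_one_of_integral {x : ℂ_[p]} (f : Polynomial ℤ) (hf : f.Monic)
    (hx : f.eval₂ (Int.castRingHom ℂ_[p]) x = 0) : ‖x‖ ≤ 1 := by
  have h1 : IsIntegral (NormedField.valuation (K := ℂ_[p])).integer x := by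
    refine ⟨f.map (Int.castRingHom _), hf.map _, ?_⟩
    rw [Polynomial.eval₂_map]
    rw [← hx]
    congr 1
  have h2 := (Valuation.integer.integers (NormedField.valuation (K := ℂ_[p]))).mem_of_integral h1
  rw [Valuation.mem_integer_iff] at h2
  exact_mod_cast h2

section

variable {H : Type} [Field H] (s : H →+* ℂ_[p])

lemma norm_emb_le (a : 𝓞 H) : ‖s a‖ ≤ 1 := by
  obtain ⟨f, hf, hfa⟩ := a.2
  apply norm_le_one_of_integral f hf
  have h1 := congrArg s hfa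
  rw [map_zero, Polynomial.hom_eval₂] at h1
  rw [← h1]
  congr 1
  exact RingHom.ext_int _ _

lemma norm_emb_unit (a : (𝓞 H)ˣ) : ‖s (a : 𝓞 H)‖ = 1 := by
  have h1 := norm_emb_le s (a : 𝓞 H)
  have h2 := norm_emb_le s ((a⁻¹ : (𝓞 H)ˣ) : 𝓞 H)
  have h3 : s (a : 𝓞 H) * s ((a⁻¹ : (𝓞 H)ˣ) : 𝓞 H) = 1 := by
    rw [← map_mul, ← map_mul, ← Units.val_mul, mul_inv_cancel, Units.val_one, map_one, map_one]
  have h4 := congrArg norm h3
  rw [norm_mul, norm_one] at h4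
  nlinarith [norm_nonneg (s (a : 𝓞 H))]

end

section

variable {F : Type} [Field F] [NumberField F]

lemma exists_two_emb (h : Module.finrank ℚ F = 2) : ∃ τ₁ τ₂ : F →+* ℂ_[p], τ₁ ≠ τ₂ := by
  have h1 := NumberField.Embeddings.card F ℂ_[p]
  rw [h] at h1
  have h2 : 1 < Fintype.card (F →+* ℂ_[p]) := by rw [h1]; norm_num
  obtain ⟨a, b, hab⟩ := Fintype.one_lt_card_iff.1 h2
  exact ⟨a, b, hab⟩

lemma prod_two_emb (h : Module.finrank ℚ F = 2) (τ₁ τ₂ : F →+* ℂ_[p]) (hτ : τ₁ ≠ τ₂)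
    (ε : (𝓞 F)ˣ) : (τ₁ (ε : 𝓞 F) * τ₂ (ε : 𝓞 F)) ^ 2 = 1 := by
  classical
  have h1 := Algebra.norm_eq_prod_embeddings ℚ ℂ_[p] ((ε : 𝓞 F) : F)
  have hcard : Fintype.card (F →ₐ[ℚ] ℂ_[p]) = 2 := by
    rw [← Fintype.card_congr (RingHom.equivRatAlgHom F ℂ_[p]), NumberField.Embeddings.card, h]
  set a₁ := RingHom.equivRatAlgHom F ℂ_[p] τ₁ with ha₁
  set a₂ := RingHom.equivRatAlgHom F ℂ_[p] τ₂ with ha₂
  have hne : a₁ ≠ a₂ := fun h => hτ ((RingHom.equivRatAlgHom F ℂ_[p]).injective h)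
  have huniv : (Finset.univ : Finset (F →ₐ[ℚ] ℂ_[p])) = {a₁, a₂} := by
    symm
    apply Finset.eq_univ_of_card
    rw [Finset.card_pair hne, hcard]
  rw [huniv, Finset.prod_pair hne] at h1
  have h2 : a₁ ((ε : 𝓞 F) : F) = τ₁ (ε : 𝓞 F) := rfl
  have h3 : a₂ ((ε : 𝓞 F) : F) = τ₂ (ε : 𝓞 F) := rfl
  rw [h2, h3] at h1
  rw [← h1, ← map_pow]
  have h4 := (NumberField.isUnit_iff_norm (K := F) (x := (ε : 𝓞 F))).1 ε.isUnit
  rw [RingOfIntegers.coe_norm] at h4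
  have h5 : (Algebra.norm ℚ ((ε : 𝓞 F) : F)) ^ 2 = 1 := by
    rw [← sq_abs, h4, one_pow]
  rw [h5, map_one]

/-- a real quadratic field has a unit of infinite order -/
lemma exists_unit [IsTotallyReal F] (h : Module.finrank ℚ F = 2) :
    ∃ ε : (𝓞 F)ˣ, ∀ n : ℕ, n ≠ 0 → ε ^ n ≠ 1 := by
  have h1 : Units.rank F = 1 := by
    have h2 := InfinitePlace.card_eq_nrRealPlaces_add_nrComplexPlaces F
    have h3 := IsTotallyReal.nrComplexPlaces_eq_zero F
    have h4 := IsTotallyReal.finrank F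
    rw [Units.rank]
    omega
  obtain ⟨e, he⟩ := exists_linearIndependent_of_le_finrank (R := ℤ) (M := Additive (𝓞 F)ˣ)
    (n := 1) (by rw [Units.finrank_eq, h1])
  refine ⟨Additive.toMul (e 0), fun n hn h0 => ?_⟩
  rw [Fintype.linearIndependent_iff] at he
  have h5 := he (fun _ => (n : ℤ)) (by
    rw [Fin.sum_univ_one]
    apply Additive.toMul.injective
    rw [toMul_zsmul, zpow_natCast, h0]
    rfl) 0
  exact hn (by exact_mod_cast h5)

end

end Pool.Agent.W289.SL
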