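import Mathlib
import Pool.Agent.H8.LD.PLog

set_option autoImplicit false

/-!
# Existence of Iwasawa's logarithm on `ℂ_p`
-/

namespace Pool.Agent.W289.SL

open Filter Topology Finset

variable {p : ℕ} [hp : Fact p.Prime]

lemma choose_tendsto (k : ℕ) :
    Tendsto (fun n : ℕ => (((p ^ n - 1).choose k : ℕ) : ℂ_[p])) atTop (𝓝 ((-1) ^ k)) := by
  have h1 : ∀ N : ℕ, ((N.choose k : ℕ) : ℂ_[p]) =
      (descPochhammer ℂ_[p] k).eval (N : ℂ_[p]) / (k.factorial : ℂ_[p]) := by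
    intro N
    rw [descPochhammer_eval_eq_descFactorial, Nat.descFactorial_eq_factorial_mul_choose]
    push_cast
    rw [mul_div_cancel_left₀]
    exact_mod_cast k.factorial_ne_zero
  have h2 : Tendsto (fun n : ℕ => (((p ^ n - 1 : ℕ) : ℂ_[p]))) atTop (𝓝 (-1)) := by
    have h3 : ∀ n : ℕ, ((p ^ n - 1 : ℕ) : ℂ_[p]) = ((p : ℕ) : ℂ_[p]) ^ n - 1 := by
      intro n
      rw [Nat.cast_sub (Nat.one_le_pow _ _ hp.out.pos)]
      push_cast
      ring
    simp only [h3]
    have h4 : Tendsto (fun n : ℕ => ((p : ℕ) : ℂ_[p]) ^ n) atTop (𝓝 0) := by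
      apply tendsto_pow_atTop_nhds_zero_of_norm_lt_one
      rw [norm_p]
      exact inv_lt_one_of_one_lt₀ (by exact_mod_cast hp.out.one_lt)
    simpa using h4.sub_const 1
  simp only [h1]
  have h5 : Tendsto (fun n : ℕ => (descPochhammer ℂ_[p] k).eval (((p ^ n - 1 : ℕ) : ℂ_[p]))) atTop
      (𝓝 ((descPochhammer ℂ_[p] k).eval (-1))) :=
    ((descPochhammer ℂ_[p] k).continuous.tendsto _).comp h2
  have h6 : (descPochhammer ℂ_[p] k).eval (-1) = (-1) ^ k * (k.factorial : ℂ_[p]) := by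
    rw [descPochhammer_eval_eq_prod_range]
    clear h1 h5
    induction k with
    | zero => simp
    | succ k ih =>
      rw [Finset.prod_range_succ, ih, Nat.factorial_succ]
      push_cast
      ring
  rw [h6] at h5
  have h7 := h5.div_const (k.factorial : ℂ_[p])
  rwa [mul_div_cancel_right₀] at h7
  exact_mod_cast k.factorial_ne_zero

/-- the logarithmic series -/
noncomputable def lser (x : ℂ_[p]) : ℂ_[p] := ∑' n : ℕ, (-1 : ℂ_[p]) ^ n * x ^ (n + 1) / ((n : ℂ_[p]) + 1)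

lemma bound_term {x : ℂ_[p]} (c : ℂ_[p]) (hc : ‖c‖ ≤ 1) (n : ℕ) :
    ‖c * x ^ (n + 1) / ((n : ℂ_[p]) + 1)‖ ≤ (n + 1 : ℕ) * ‖x‖ ^ (n + 1) := by
  have h3 := one_le_norm_natCast (p := p) (n + 1) (by omega)
  have hpos : 0 < ‖((n + 1 : ℕ) : ℂ_[p])‖ := by
    rw [norm_pos_iff]
    exact_mod_cast (by omega : n + 1 ≠ 0)
  have h4 : (n : ℂ_[p]) + 1 = ((n + 1 : ℕ) : ℂ_[p]) := by push_cast; ring
  rw [h4, norm_div, norm_mul, norm_pow, div_le_iff₀ hpos]
  calc ‖c‖ * ‖x‖ ^ (n + 1) ≤ 1 * ‖x‖ ^ (n + 1) := by gcongr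
    _ = 1 * ‖x‖ ^ (n + 1) := rfl
    _ ≤ (‖((n + 1 : ℕ) : ℂ_[p])‖ * ((n + 1 : ℕ) : ℝ)) * ‖x‖ ^ (n + 1) := by gcongr
    _ = _ := by ring

lemma summable_bound {x : ℂ_[p]} (hx : ‖x‖ < 1) :
    Summable (fun n : ℕ => ((n + 1 : ℕ) : ℝ) * ‖x‖ ^ (n + 1)) := by
  have h := summable_pow_mul_geometric_of_norm_lt_one 1 (r := ‖x‖) (by rwa [norm_norm])
  simp only [pow_one] at h
  exact (summable_nat_add_iff 1).2 h

lemma hasSum_lser {x : ℂ_[p]} (hx : ‖x‖ < 1) :
    HasSum (fun n : ℕ => (-1 : ℂ_[p]) ^ n * x ^ (n + 1) / ((n : ℂ_[p]) + 1)) (lser x) := by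
  apply Summable.hasSum
  refine Summable.of_norm_bounded (summable_bound hx) fun n => ?_
  exact bound_term _ (by rw [norm_pow, norm_neg, norm_one, one_pow]) n

lemma lser_tendsto {x : ℂ_[p]} (hx : ‖x‖ < 1) :
    Tendsto (fun n : ℕ => ((1 + x) ^ (p ^ n) - 1) / ((p : ℕ) : ℂ_[p]) ^ n) atTop (𝓝 (lser x)) := by
  have h1 : ∀ n : ℕ, ((1 + x) ^ (p ^ n) - 1) / ((p : ℕ) : ℂ_[p]) ^ n =
      ∑' k : ℕ, (((p ^ n - 1).choose k : ℕ) : ℂ_[p]) * x ^ (k + 1) / ((k : ℂ_[p]) + 1) := by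
    intro n
    have hpn : 0 < p ^ n := pow_pos hp.out.pos n
    have hp0 : (((p ^ n : ℕ)) : ℂ_[p]) ≠ 0 := by exact_mod_cast hpn.ne'
    rw [tsum_eq_sum (s := Finset.range (p ^ n))]
    · rw [add_comm 1 x, add_pow, Finset.sum_range_succ', div_eq_iff (by exact_mod_cast hp0)]
      simp only [one_pow, mul_one, pow_zero, Nat.choose_zero_right, Nat.cast_one, add_sub_cancel_right]
      rw [Finset.sum_mul]
      refine Finset.sum_congr rfl fun k hk => ?_
      have hk1 : ((k : ℂ_[p]) + 1) ≠ 0 := by exact_mod_cast Nat.succ_ne_zero k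
      rw [div_mul_eq_mul_div, eq_div_iff hk1]
      have h2 := Nat.add_one_mul_choose_eq (p ^ n - 1) k
      rw [Nat.sub_add_cancel hpn] at h2
      have h3 : ((p ^ n : ℕ) : ℂ_[p]) * ((p ^ n - 1).choose k : ℕ) =
          ((p ^ n).choose (k + 1) : ℕ) * ((k : ℂ_[p]) + 1) := by
        exact_mod_cast h2
      push_cast at h3
      linear_combination -(x ^ (k + 1)) * h3
    · intro k hk
      rw [Finset.mem_range, not_lt] at hk
      rw [Nat.choose_eq_zero_of_lt (by omega)]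
      simp
  simp only [h1]
  unfold lser
  apply tendsto_tsum_of_dominated_convergence (summable_bound hx)
  · intro k
    exact ((choose_tendsto k).mul_const _).div_const _
  · filter_upwards with n
    intro k
    exact bound_term _ (norm_natCast_le _) k

lemma lser_mul {x y : ℂ_[p]} (hx : ‖x‖ < 1) (hy : ‖y‖ < 1) :
    ‖(1 + x) * (1 + y) - 1‖ < 1 ∧ lser ((1 + x) * (1 + y) - 1) = lser x + lser y := by
  have hxy : ‖(1 + x) * (1 + y) - 1‖ < 1 := by
    have h1 : (1 + x) * (1 + y) - 1 = x + (y + x * y) := by ring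
    rw [h1]
    refine lt_of_le_of_lt (IsUltrametricDist.norm_add_le_max _ _) (max_lt hx ?_)
    refine lt_of_le_of_lt (IsUltrametricDist.norm_add_le_max _ _) (max_lt hy ?_)
    rw [norm_mul]
    nlinarith [norm_nonneg x, norm_nonneg y]
  refine ⟨hxy, ?_⟩
  have h1 := lser_tendsto hxy
  have h2 := lser_tendsto hx
  have h3 := lser_tendsto hy
  have hpn : Tendsto (fun n : ℕ => ((p : ℕ) : ℂ_[p]) ^ n) atTop (𝓝 0) := by
    apply tendsto_pow_atTop_nhds_zero_of_norm_lt_one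
    rw [norm_p]
    exact inv_lt_one_of_one_lt₀ (by exact_mod_cast hp.out.one_lt)
  have hp0 : ((p : ℕ) : ℂ_[p]) ≠ 0 := by exact_mod_cast hp.out.ne_zero
  have h4 : Tendsto (fun n : ℕ => (1 + y) ^ (p ^ n)) atTop (𝓝 1) := by
    have h5 := (hpn.mul h3).add_const 1
    rw [zero_mul, zero_add] at h5
    refine h5.congr fun n => ?_
    rw [mul_div_cancel₀ _ (pow_ne_zero _ hp0)]
    ring
  have h6 := (h2.mul h4).add h3
  rw [mul_one] at h6
  refine tendsto_nhds_unique (h1.congr fun n => ?_) h6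
  rw [show (1 : ℂ_[p]) + ((1 + x) * (1 + y) - 1) = (1 + x) * (1 + y) by ring, mul_pow]
  field_simp
  ring

/-- the principal units -/
def prin (p : ℕ) [Fact p.Prime] : Subgroup ℂ_[p]ˣ where
  carrier := {u | ‖(u : ℂ_[p]) - 1‖ < 1}
  one_mem' := by simp
  mul_mem' := by
    intro u v hu hv
    have h1 := (lser_mul (p := p) hu hv).1
    simpa using h1
  inv_mem' := by
    intro u hu
    have hu' : ‖(u : ℂ_[p]) - 1‖ < 1 := hu
    have hn : ‖(u : ℂ_[p])‖ = 1 := by
      have h1 : (u : ℂ_[p]) = 1 + ((u : ℂ_[p]) - 1) := by ring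
      rw [h1, IsUltrametricDist.norm_add_eq_max_of_norm_ne_norm, norm_one, max_eq_left hu'.le]
      rw [norm_one]
      exact hu'.ne'
    have h2 : ((u⁻¹ : ℂ_[p]ˣ) : ℂ_[p]) - 1 = -(((u⁻¹ : ℂ_[p]ˣ) : ℂ_[p]) * ((u : ℂ_[p]) - 1)) := by
      rw [mul_sub, Units.inv_mul]
      ring
    change ‖((u⁻¹ : ℂ_[p]ˣ) : ℂ_[p]) - 1‖ < 1
    rw [h2, norm_neg, norm_mul, Units.val_inv_eq_inv_val, norm_inv, hn, inv_one, one_mul]
    exact hu'

/-- **Iwasawa's logarithm exists.** -/
theorem exists_iwasawaLog (p : ℕ) [hp : Fact p.Prime] : ∃ L : ℂ_[p] → ℂ_[p], IsIwasawaLog p L := by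
  classical
  have hp0 : ((p : ℕ) : ℂ_[p]) ≠ 0 := by exact_mod_cast hp.out.ne_zero
  set π : ℂ_[p]ˣ := Units.mk0 ((p : ℕ) : ℂ_[p]) hp0 with hπ
  -- the subgroup generated by the principal units and `p`
  let f : (Additive (prin p) × ℤ) →+ Additive ℂ_[p]ˣ :=
    { toFun := fun x => Additive.ofMul (((Additive.toMul x.1 : prin p) : ℂ_[p]ˣ) * π ^ x.2)
      map_zero' := by simp
      map_add' := by
        intro x y
        rw [← ofMul_mul]
        congr 1
        simp only [Prod.fst_add, Prod.snd_add, toMul_add, Subgroup.coe_mul, zpow_add]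
        exact mul_mul_mul_comm _ _ _ _ }
  have hf : Function.Injective f := by
    rw [injective_iff_map_eq_zero]
    rintro ⟨u, m⟩ h
    have h1 : ((Additive.toMul u : prin p) : ℂ_[p]ˣ) * π ^ m = 1 := h
    have hu : ‖(((Additive.toMul u : prin p) : ℂ_[p]ˣ) : ℂ_[p]) - 1‖ < 1 := (Additive.toMul u).2
    have hn : ‖(((Additive.toMul u : prin p) : ℂ_[p]ˣ) : ℂ_[p])‖ = 1 := by
      have h1 : (((Additive.toMul u : prin p) : ℂ_[p]ˣ) : ℂ_[p]) =
        1 + ((((Additive.toMul u : prin p) : ℂ_[p]ˣ) : ℂ_[p]) - 1) := by ring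
      rw [h1, IsUltrametricDist.norm_add_eq_max_of_norm_ne_norm, norm_one, max_eq_left hu.le]
      rw [norm_one]
      exact hu.ne'
    have h2 := congrArg (fun z : ℂ_[p]ˣ => ‖(z : ℂ_[p])‖) h1
    simp only [Units.val_mul, norm_mul, hn, one_mul, Units.val_one, norm_one] at h2
    rw [Units.val_zpow_eq_zpow_val, hπ, Units.val_mk0, norm_zpow, norm_p] at h2
    have hm : m = 0 := by
      by_contra hm
      have h3 : (p : ℝ)⁻¹ ≠ 1 := by
        have : (1 : ℝ) < p := by exact_mod_cast hp.out.one_lt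
        exact (inv_lt_one_of_one_lt₀ this).ne
      have h4 : (0 : ℝ) < (p : ℝ)⁻¹ := by
        have := hp.out.pos
        positivity
      rcases zpow_eq_one_iff_right₀ h4.le h3 |>.1 h2 with h5
      exact hm h5
    subst hm
    rw [zpow_zero, mul_one] at h1
    have h3 : (Additive.toMul u : prin p) = 1 := Subtype.ext h1
    have h4 : u = 0 := by
      apply Additive.toMul.injective
      rw [h3]
      rfl
    rw [h4]
    rfl
  let g : (Additive (prin p) × ℤ) →+ ℂ_[p] :=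
    { toFun := fun x => lser ((((Additive.toMul x.1 : prin p) : ℂ_[p]ˣ) : ℂ_[p]) - 1)
      map_zero' := by
        have h1 := (lser_mul (p := p) (x := 0) (y := 0) (by simp) (by simp)).2
        have h2 : lser (p := p) 0 = 0 := by
          simpa using h1
        simpa using h2
      map_add' := by
        intro x y
        have hx : ‖(((Additive.toMul x.1 : prin p) : ℂ_[p]ˣ) : ℂ_[p]) - 1‖ < 1 := (Additive.toMul x.1).2
        have hy : ‖(((Additive.toMul y.1 : prin p) : ℂ_[p]ˣ) : ℂ_[p]) - 1‖ < 1 := (Additive.toMul y.1).2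
        have h1 := (lser_mul hx hy).2
        rw [← h1]
        congr 1
        simp only [Prod.fst_add, toMul_add, Subgroup.coe_mul, Units.val_mul]
        ring }
  have hdiv : DivisibleBy ℂ_[p] ℤ :=
    { div := fun a n => a / (n : ℂ_[p])
      div_zero := fun a => by simp
      div_cancel := fun a {n} hn => by
        rw [zsmul_eq_mul, mul_div_cancel₀]
        exact_mod_cast hn }
  obtain ⟨ℓ, hℓ⟩ := (Module.Baer.of_divisible ℂ_[p]).extension_property_addMonoidHom f hf g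
  have hℓ' : ∀ (u : prin p) (m : ℤ), ℓ (Additive.ofMul ((u : ℂ_[p]ˣ) * π ^ m)) =
      lser (((u : ℂ_[p]ˣ) : ℂ_[p]) - 1) := by
    intro u m
    have h1 := congrArg (fun F : (Additive (prin p) × ℤ) →+ ℂ_[p] => F (Additive.ofMul u, m)) hℓ
    exact h1
  refine ⟨fun z => if h : z = 0 then 0 else ℓ (Additive.ofMul (Units.mk0 z h)), ?_, ?_, ?_⟩
  · intro x y hx hy
    rw [dif_neg hx, dif_neg hy, dif_neg (mul_ne_zero hx hy), ← map_add, ← ofMul_mul]
    congr 2
    exact Units.ext rfl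
  · rw [dif_neg hp0]
    have h1 := hℓ' 1 1
    simp only [OneMemClass.coe_one, zpow_one, one_mul, Units.val_one, sub_self] at h1
    rw [← hπ, h1]
    have h1 := (lser_mul (p := p) (x := 0) (y := 0) (by simp) (by simp)).2
    simpa using h1
  · intro z hz
    have hz0 : (1 : ℂ_[p]) + z ≠ 0 := by
      intro h
      have : z = -1 := by linear_combination h
      rw [this, norm_neg, norm_one] at hz
      exact lt_irrefl _ hz
    rw [dif_neg hz0]
    have hmem : Units.mk0 (1 + z) hz0 ∈ prin p := by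
      change ‖(1 + z) - 1‖ < 1
      simpa using hz
    have h1 := hℓ' ⟨Units.mk0 (1 + z) hz0, hmem⟩ 0
    simp only [zpow_zero, mul_one, Units.val_mk0, add_sub_cancel_left] at h1
    rw [h1]
    exact hasSum_lser hz

end Pool.Agent.W289.SL
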