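import Mathlib
import Pool.Agent.H8.LD.Emb
import Pool.Agent.H8.LD.LogEx

/-!
# Project LC (helper18), job LC-LCP: Leopoldt implies the injectivity of the logarithms
-/

set_option autoImplicit false
set_option linter.unusedSectionVars false

namespace Pool.Agent.Y419.LC.LcpP

open NumberField Module TensorProduct Pool.Agent.W289.SL Filter Topology

variable {p : ℕ} [hp : Fact p.Prime]

/-- torsion dies in `ℂ_p ⊗ -` -/
lemma tmul_torsion {H : Type} [Field H] [NumberField H] (a : ℂ_[p]) (t : Additive (𝓞 H)ˣ) (n : ℕ)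
    (hn : n ≠ 0) (ht : n • t = 0) : (a ⊗ₜ[ℤ] t : UM p H) = 0 := by
  have hn' : (n : ℂ_[p]) ≠ 0 := by exact_mod_cast hn
  have h1 : (a ⊗ₜ[ℤ] t : UM p H) = (n • (a / n)) ⊗ₜ[ℤ] t := by
    congr 1
    rw [nsmul_eq_mul]
    field_simp
  rw [h1, TensorProduct.smul_tmul, ht, TensorProduct.tmul_zero]

lemma tmul_zsmul {H : Type} [Field H] [NumberField H] (c : ℂ_[p]) (k : ℤ)
    (w : Additive (𝓞 H)ˣ) : (c ⊗ₜ[ℤ] (k • w) : UM p H) = (c * (k : ℂ_[p])) ⊗ₜ[ℤ] w := by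
  have h5 := map_zsmul (TensorProduct.mk ℤ ℂ_[p] (Additive (𝓞 H)ˣ) c) k w
  have h6 : (c ⊗ₜ[ℤ] (k • w) : UM p H) = k • (c ⊗ₜ[ℤ] w : UM p H) := h5
  rw [h6, ← Int.cast_smul_eq_zsmul ℂ_[p], TensorProduct.smul_tmul', smul_eq_mul, mul_comm]

section coord

variable {E : Type} [Field E] [NumberField E]

/-- the index set of the integral basis -/
abbrev J (E : Type) [Field E] [NumberField E] : Type := Free.ChooseBasisIndex ℤ (𝓞 E)

/-- the integral basis -/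
noncomputable abbrev om (E : Type) [Field E] [NumberField E] : Basis (J E) ℤ (𝓞 E) :=
  RingOfIntegers.basis E

/-- coordinates and embeddings -/
lemma emb_coord (σ : E →+* ℂ_[p]) (y : 𝓞 E) :
    σ (y : E) = ∑ j, (((om E).repr y j : ℤ) : ℂ_[p]) * σ ((om E j : 𝓞 E) : E) := by
  set τ : 𝓞 E →+* ℂ_[p] := σ.comp (algebraMap (𝓞 E) E) with hτ
  have h1 : τ y = ∑ j, (((om E).repr y j : ℤ) : ℂ_[p]) * τ (om E j) := by
    conv_lhs => rw [← (om E).sum_repr y]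
    rw [map_sum]
    refine Finset.sum_congr rfl fun j _ => ?_
    rw [zsmul_eq_mul, map_mul, map_intCast]
  exact h1

/-- the inverse of the matrix of the embeddings -/
lemma exists_inv : ∃ N : (E →+* ℂ_[p]) → J E → ℂ_[p], ∀ (t : J E → ℂ_[p]) (j : J E),
    t j = ∑ σ : E →+* ℂ_[p], (∑ i, t i * σ ((om E i : 𝓞 E) : E)) * N σ j := by
  classical
  set b := integralBasis E with hb
  have hcard : Fintype.card (J E) = Fintype.card (E →ₐ[ℚ] ℂ_[p]) := by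
    rw [AlgHom.card ℚ E ℂ_[p]]
    exact (Module.finrank_eq_card_basis b).symm
  let e : J E ≃ (E →ₐ[ℚ] ℂ_[p]) := Fintype.equivOfCardEq hcard
  set M : Matrix (J E) (J E) ℂ_[p] := Algebra.embeddingsMatrixReindex ℚ ℂ_[p] b e with hM
  have hdet : M.det ≠ 0 := by
    intro h0
    have h1 := Algebra.discr_eq_det_embeddingsMatrixReindex_pow_two ℚ ℂ_[p] b e
    rw [← hM, h0] at h1
    have h2 := Algebra.discr_not_zero_of_basis ℚ b
    apply h2
    apply (algebraMap ℚ ℂ_[p]).injective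
    rw [h1, map_zero]
    norm_num
  have hMij : ∀ i j, M i j = e j ((om E i : 𝓞 E) : E) := by
    intro i j
    rw [hM]
    change e j (b i) = _
    rw [hb, integralBasis_apply]
  let f : J E ≃ (E →+* ℂ_[p]) := e.trans (RingHom.equivRatAlgHom E ℂ_[p]).symm
  refine ⟨fun σ j => M⁻¹ (f.symm σ) j, ?_⟩
  intro t j
  have h1 : Matrix.vecMul (Matrix.vecMul t M) M⁻¹ = t := by
    rw [Matrix.vecMul_vecMul, Matrix.mul_nonsing_inv M (isUnit_iff_ne_zero.2 hdet),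
      Matrix.vecMul_one]
  have h2 := congrFun h1 j
  have h3 : Matrix.vecMul (Matrix.vecMul t M) M⁻¹ j = ∑ k, (∑ i, t i * M i k) * M⁻¹ k j := rfl
  rw [h3] at h2
  rw [← h2, ← Equiv.sum_comp f]
  refine Finset.sum_congr rfl fun k _ => ?_
  have h4 : f.symm (f k) = k := Equiv.symm_apply_apply f k
  simp only [h4]
  congr 1
  refine Finset.sum_congr rfl fun i _ => ?_
  rw [hMij]
  rfl

end coord

section desc

variable {E : Type} [Field E] [NumberField E]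

/-- integers close to a `p`-adic integer -/
lemma exists_seq (x : PadicInt p) : ∃ m : ℕ → ℤ,
    Tendsto (fun k => ((m k : ℤ) : PadicInt p)) atTop (𝓝 x) := by
  have h1 : x ∈ closure (Set.range (Int.cast : ℤ → PadicInt p)) :=
    PadicInt.denseRange_intCast x
  obtain ⟨u, hu, hux⟩ := mem_closure_iff_seq_limit.1 h1
  choose m hm using hu
  refine ⟨m, ?_⟩
  have : (fun k => ((m k : ℤ) : PadicInt p)) = u := funext hm
  rw [this]
  exact hux

/-- the logarithm controls the distance to `1` -/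
lemma dist_le {L : ℂ_[p] → ℂ_[p]} (hL : IsIwasawaLog p L) {z : ℂ_[p]} (hz : ‖z‖ ≤ 1 / 8) :
    ‖z‖ ≤ 2 * ‖L (1 + z)‖ := by
  have h1 := hL.approx hz
  have h2 : ‖z‖ ≤ ‖L (1 + z)‖ + ‖L (1 + z) - z‖ := by
    have h3 : z = L (1 + z) - (L (1 + z) - z) := by ring
    calc ‖z‖ = ‖L (1 + z) - (L (1 + z) - z)‖ := by rw [← h3]
      _ ≤ _ := norm_sub_le _ _
  nlinarith [norm_nonneg z]

/-- `ε = 1` modulo `p ^ 4` -/
def U4 (E : Type) [Field E] [NumberField E] (p : ℕ) : Subgroup (𝓞 E)ˣ :=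
  (Units.map (Ideal.Quotient.mk (Ideal.span {((p : ℕ) : 𝓞 E) ^ 4})).toMonoidHom).ker

lemma mem_U4 (u : (𝓞 E)ˣ) : u ∈ U4 E p ↔ ((p : ℕ) : 𝓞 E) ^ 4 ∣ (u : 𝓞 E) - 1 := by
  unfold U4
  rw [MonoidHom.mem_ker, ← Ideal.mem_span_singleton, ← Ideal.Quotient.eq_zero_iff_mem, map_sub,
    map_one, sub_eq_zero, Units.ext_iff]
  rfl

lemma exists_pow_U4 (E : Type) [Field E] [NumberField E] (p : ℕ) [hp : Fact p.Prime] :
    ∃ n : ℕ, n ≠ 0 ∧ ∀ u : (𝓞 E)ˣ, u ^ n ∈ U4 E p := by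
  have hm : ((p : ℕ) : 𝓞 E) ^ 4 ≠ 0 := pow_ne_zero _ (by exact_mod_cast hp.out.ne_zero)
  have hfin : Finite (𝓞 E ⧸ Ideal.span {((p : ℕ) : 𝓞 E) ^ 4}) :=
    Ideal.finiteQuotientOfFreeOfNeBot _ (by rwa [Ne, Ideal.span_singleton_eq_bot])
  have : Fintype (𝓞 E ⧸ Ideal.span {((p : ℕ) : 𝓞 E) ^ 4})ˣ := Fintype.ofFinite _
  refine ⟨Fintype.card (𝓞 E ⧸ Ideal.span {((p : ℕ) : 𝓞 E) ^ 4})ˣ, Fintype.card_ne_zero, ?_⟩
  intro u
  unfold U4
  rw [MonoidHom.mem_ker, map_pow, pow_card_eq_one]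

end desc

end Pool.Agent.Y419.LC.LcpP
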