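import Pool.Agent.H8.LD.Emb

/-!
# Criterion for Leopoldt's conjecture (LF-CRIT)
-/

set_option autoImplicit false
set_option linter.unusedSectionVars false

open NumberField Filter Topology Pool.Agent.W289.SL

namespace Pool.Agent.W253.LF

section
variable {p : ℕ} [hp : Fact p.Prime] {K : Type} [Field K] [NumberField K]
  {L : ℂ_[p] → ℂ_[p]} (hL : IsIwasawaLog p L)

/-- the vector of logarithms -/
noncomputable def Lam : Additive (𝓞 K)ˣ →+ ((K →+* ℂ_[p]) → ℂ_[p]) :=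
  AddMonoidHom.pi fun σ => logHom hL σ

theorem Lam_apply (x : (𝓞 K)ˣ) (σ : K →+* ℂ_[p]) :
    Lam hL (Additive.ofMul x) σ = L (σ ((x : 𝓞 K) : K)) := rfl

theorem exists_torsion_pow {x : (𝓞 K)ˣ} (hx : x ∈ Units.torsion K) :
    ∃ M : ℕ, 0 < M ∧ x ^ M = 1 := by
  have := (CommGroup.mem_torsion x).1 hx
  exact isOfFinOrder_iff_pow_eq_one.1 this

theorem prod_zpow_sum {G ι : Type} [CommGroup G] (s : Finset ι) (x : G) (f : ι → ℤ) :
    ∏ i ∈ s, x ^ f i = x ^ ∑ i ∈ s, f i := by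
  classical
  induction s using Finset.induction_on with
  | empty => simp
  | insert a s ha ih => rw [Finset.prod_insert ha, Finset.sum_insert ha, ih, zpow_add]

theorem Lam_torsion {x : (𝓞 K)ˣ} (hx : x ∈ Units.torsion K) :
    Lam hL (Additive.ofMul x) = 0 := by
  obtain ⟨M, hM, h⟩ := exists_torsion_pow hx
  have h1 : M • Lam hL (Additive.ofMul x) = 0 := by
    rw [← map_nsmul, ← ofMul_pow, h, ofMul_one, map_zero]
  funext σ
  have h2 := congrFun h1 σ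
  simp only [Pi.smul_apply, nsmul_eq_mul, Pi.zero_apply] at h2
  rcases mul_eq_zero.1 h2 with h3 | h3
  · exfalso
    have : M ≠ 0 := hM.ne'
    exact this (by exact_mod_cast h3)
  · exact h3

theorem Lam_prod {ι : Type} [Fintype ι] (v : ι → (𝓞 K)ˣ) (m : ι → ℤ) :
    Lam hL (Additive.ofMul (∏ i, v i ^ m i)) = ∑ i, (m i : ℂ_[p]) • Lam hL (Additive.ofMul (v i)) := by
  rw [ofMul_prod, map_sum]
  refine Finset.sum_congr rfl fun i _ => ?_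
  rw [ofMul_zpow, map_zsmul]
  funext σ
  simp

theorem exists_exp (x : (𝓞 K)ˣ) : ∃ (ζ : (𝓞 K)ˣ) (e : Fin (Units.rank K) → ℤ),
    ζ ∈ Units.torsion K ∧ x = ζ * ∏ i, (Units.fundSystem K i) ^ (e i) := by
  obtain ⟨⟨ζ, e⟩, h, -⟩ := Units.exist_unique_eq_mul_prod K x
  exact ⟨ζ, e, ζ.2, h⟩

theorem exists_den {n : ℕ} (q : Fin n → ℚ) : ∃ (D : ℕ) (c : Fin n → ℤ), D ≠ 0 ∧
    ∀ i, (c i : ℚ) = D * q i := by
  refine ⟨∏ i, (q i).den, fun i => (∏ j ∈ Finset.univ.erase i, ((q j).den : ℤ)) * (q i).num,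
    Finset.prod_ne_zero_iff.2 fun i _ => (q i).den_nz, fun i => ?_⟩
  rw [← Finset.prod_erase_mul _ _ (Finset.mem_univ i)]
  push_cast
  have h1 := Rat.mul_den_eq_num (q i)
  rw [← h1]
  ring

theorem norm_L_le (hL : IsIwasawaLog p L) {z : ℂ_[p]} (hz : ‖z‖ ≤ 1 / 8) :
    ‖L (1 + z)‖ ≤ 2 * ‖z‖ := by
  have h1 := hL.approx hz
  have h2 : L (1 + z) = (L (1 + z) - z) + z := by ring
  rw [h2]
  refine (norm_add_le _ _).trans ?_
  nlinarith [norm_nonneg z]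

/-- the limit of the logarithms -/
theorem tendsto_zero (hL : IsIwasawaLog p L) (σ : K →+* ℂ_[p]) (y : ℕ → (𝓞 K)ˣ)
    (hy : ∀ N : ℕ, ∀ᶠ k in atTop, ((p : ℕ) : 𝓞 K) ^ N ∣ ((y k : 𝓞 K) - 1)) :
    Tendsto (fun k => L (σ ((y k : 𝓞 K) : K))) atTop (𝓝 0) := by
  rw [Metric.tendsto_atTop']
  intro δ hδ
  have hp2 : (1 : ℝ) < p := by exact_mod_cast hp.out.one_lt
  have hlim : Tendsto (fun N : ℕ => ((p : ℝ)⁻¹) ^ N) atTop (𝓝 0) :=
    tendsto_pow_atTop_nhds_zero_of_lt_one (by positivity) (inv_lt_one_of_one_lt₀ hp2)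
  obtain ⟨N, hN⟩ := (hlim.eventually (gt_mem_nhds
    (show (0 : ℝ) < min (1 / 8) (δ / 2) from lt_min (by norm_num) (by linarith)))).exists
  obtain ⟨k₀, hk₀⟩ := eventually_atTop.1 (hy N)
  refine ⟨k₀, fun k hk => ?_⟩
  obtain ⟨w, hw⟩ := hk₀ k hk.le
  have h1 : σ ((y k : 𝓞 K) : K) = 1 + ((p : ℕ) : ℂ_[p]) ^ N * σ (w : K) := by
    have h2 : ((y k : 𝓞 K) : K) = 1 + ((p : ℕ) : K) ^ N * (w : K) := by
      have h3 := congrArg (fun x : 𝓞 K => (x : K)) hw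
      simp only [map_sub, map_one, map_mul, map_pow, map_natCast] at h3
      rw [← h3]
      ring
    rw [h2]
    simp
  have h4 : ‖((p : ℕ) : ℂ_[p]) ^ N * σ (w : K)‖ ≤ ((p : ℝ)⁻¹) ^ N := by
    rw [norm_mul, norm_pow, norm_p]
    have := norm_emb_le σ w
    calc ((p : ℝ)⁻¹) ^ N * ‖σ (w : K)‖ ≤ ((p : ℝ)⁻¹) ^ N * 1 := by gcongr
      _ = _ := mul_one _
  have h5 := lt_min_iff.1 hN
  rw [dist_zero_right, h1]
  refine (norm_L_le hL (h4.trans h5.1.le)).trans_lt ?_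
  linarith [h5.2]

end

end Pool.Agent.W253.LF

namespace Pool.Agent.Y944.LC

open Finset NumberField Filter Topology

section
variable {E : Type} [Field E] [NumberField E] {p : ℕ} [hp : Fact p.Prime] {L : ℂ_[p] → ℂ_[p]}

open Pool.Agent.W253.LF in
lemma rel_of_lim (hL : Pool.Agent.W289.SL.IsIwasawaLog p L) (n : ℕ) (ε : Fin n → (𝓞 E)ˣ)
    (a : Fin n → PadicInt p) (m : ℕ → Fin n → ℤ)
    (hma : ∀ i, Tendsto (fun k => ((m k i : ℤ) : PadicInt p)) atTop (𝓝 (a i)))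
    (hdiv : ∀ N : ℕ, ∀ᶠ k in atTop,
        ((p : ℕ) : 𝓞 E) ^ N ∣ (((∏ i, ε i ^ m k i : (𝓞 E)ˣ) : 𝓞 E) - 1))
    (σ : E →+* ℂ_[p]) :
    ∑ i, algebraMap ℚ_[p] ℂ_[p] (a i : ℚ_[p]) * L (σ ((ε i : 𝓞 E) : E)) = 0 := by
  have hj : Continuous (fun x : PadicInt p => algebraMap ℚ_[p] ℂ_[p] (x : ℚ_[p])) :=
    (continuous_algebraMap ℚ_[p] ℂ_[p]).comp continuous_subtype_val
  have h1 := tendsto_zero hL σ (fun k => ∏ i, ε i ^ m k i) hdiv
  have h2 : ∀ k, L (σ (((∏ i, ε i ^ m k i : (𝓞 E)ˣ) : 𝓞 E) : E)) =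
      ∑ i, algebraMap ℚ_[p] ℂ_[p] (((m k i : ℤ) : PadicInt p) : ℚ_[p]) *
        L (σ ((ε i : 𝓞 E) : E)) := by
    intro k
    have h3 := congrFun (Lam_prod hL ε (m k)) σ
    rw [Lam_apply] at h3
    rw [h3, Finset.sum_apply]
    refine Finset.sum_congr rfl fun i _ => ?_
    rw [Pi.smul_apply, smul_eq_mul, Lam_apply]
    congr 1
    simp
  simp only [h2] at h1
  have h4 : Tendsto (fun k => ∑ i, algebraMap ℚ_[p] ℂ_[p] (((m k i : ℤ) : PadicInt p) : ℚ_[p]) *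
        L (σ ((ε i : 𝓞 E) : E))) atTop
      (𝓝 (∑ i, algebraMap ℚ_[p] ℂ_[p] (a i : ℚ_[p]) * L (σ ((ε i : 𝓞 E) : E)))) := by
    refine tendsto_finsetSum _ fun i _ => ?_
    exact ((hj.tendsto (a i)).comp (hma i)).mul_const _
  exact tendsto_nhds_unique h4 h1

end


end Pool.Agent.Y944.LC
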