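import Pool.Agent.H8.LD.Units
import Pool.Agent.H8.LD.Lim
import Pool.Agent.H8.LD.LCP

/-!
# The action of the Galois group on the units
-/

set_option autoImplicit false
set_option linter.unusedSectionVars false

namespace Pool.Agent.X328.LP

open NumberField Pool.Agent.W289.SL Pool.Agent.W332.SL6
open TensorProduct

variable {k F : Type} [Field k] [NumberField k] [Field F] [NumberField F] [Algebra k F]

/-- the action of the Galois group on the units, written additively -/
noncomputable def gu (g : F ≃ₐ[k] F) : Additive (𝓞 F)ˣ →+ Additive (𝓞 F)ˣ := uMap (g : F →+* F)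

lemma gu_coe (g : F ≃ₐ[k] F) (u : Additive (𝓞 F)ˣ) :
    (((Additive.toMul (gu g u) : (𝓞 F)ˣ) : 𝓞 F) : F) = g ((Additive.toMul u : (𝓞 F)ˣ) : 𝓞 F) := rfl

lemma gu_mul (g h : F ≃ₐ[k] F) (u : Additive (𝓞 F)ˣ) : gu (g * h) u = gu g (gu h u) := by
  unfold gu
  rw [uMap_comp]
  rfl

lemma gu_one (u : Additive (𝓞 F)ˣ) : gu (1 : F ≃ₐ[k] F) u = u := by
  apply Additive.toMul.injective
  apply Units.ext
  apply RingOfIntegers.ext
  rfl

section
variable {p : ℕ} [hp : Fact p.Prime]

/-- the action of the Galois group on `ℂ_p ⊗ 𝓞_F^×` -/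
noncomputable def rho (p : ℕ) [Fact p.Prime] (k F : Type) [Field k] [NumberField k] [Field F]
    [NumberField F] [Algebra k F] : (F ≃ₐ[k] F) →* Module.End ℚ_[p] (UM p F) where
  toFun g := (actLin p (g : F →+* F)).restrictScalars ℚ_[p]
  map_one' := by
    refine LinearMap.ext fun x => ?_
    change actLin p (RingHom.id F) x = x
    induction x using TensorProduct.induction_on with
    | zero => rw [map_zero]
    | tmul c u => rfl
    | add x y hx hy => rw [map_add, hx, hy]
  map_mul' g h := by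
    refine LinearMap.ext fun x => ?_
    change actLin p ((g * h : F ≃ₐ[k] F) : F →+* F) x =
      actLin p (g : F →+* F) (actLin p (h : F →+* F) x)
    rw [actLin_eq, actLin_eq, actLin_eq, push_push]
    rfl

lemma rho_tmul (g : F ≃ₐ[k] F) (c : ℂ_[p]) (u : Additive (𝓞 F)ˣ) :
    rho p k F g (c ⊗ₜ u : UM p F) = c ⊗ₜ gu g u := rfl

lemma logLin_rho {L : ℂ_[p] → ℂ_[p]} (hL : IsIwasawaLog p L) (σ : F →+* ℂ_[p]) (g : F ≃ₐ[k] F)
    (x : UM p F) : logLin hL σ (rho p k F g x) = logLin hL (σ.comp (g : F →+* F)) x :=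
  logLin_push hL _ σ x

/-- the vectors killed by all logarithms -/
def Ker {L : ℂ_[p] → ℂ_[p]} (hL : IsIwasawaLog p L) (x : UM p F) : Prop :=
  ∀ σ : F →+* ℂ_[p], logLin hL σ x = 0

lemma logLin_smulQ {L : ℂ_[p] → ℂ_[p]} (hL : IsIwasawaLog p L) (σ : F →+* ℂ_[p]) (c : ℚ_[p])
    (x : UM p F) : logLin hL σ (c • x) = algebraMap ℚ_[p] ℂ_[p] c * logLin hL σ x := by
  rw [← algebraMap_smul ℂ_[p] c x, map_smul, smul_eq_mul]

end

lemma exists_extC {p : ℕ} [Fact p.Prime] {F K : Type} [Field F] [Field K] [Algebra F K]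
    [Algebra.IsAlgebraic F K] (τ : F →+* ℂ_[p]) :
    ∃ s : K →+* ℂ_[p], s.comp (algebraMap F K) = τ := by
  let := τ.toAlgebra
  let f : K →ₐ[F] ℂ_[p] := IsAlgClosed.lift
  exact ⟨f, f.comp_algebraMap⟩

lemma uMap_inj {E M : Type} [Field E] [NumberField E] [Field M] [NumberField M] (f : E →+* M) :
    Function.Injective (uMap f) := by
  intro u v huv
  apply Additive.toMul.injective
  apply Units.ext
  apply RingOfIntegers.ext
  apply f.injective
  rw [← uMap_coe, ← uMap_coe, huv]

open Classical in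
lemma card_filter {G : Type*} [Group G] [Fintype G] (D : Subgroup G) :
    (Finset.univ.filter fun d : G => d ∈ D).card = Nat.card D := by
  rw [Nat.card_eq_fintype_card, Fintype.card_subtype]

end Pool.Agent.X328.LP
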