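import Mathlib

/-!
# Representations of finite groups: divisibility of dimensions
-/

set_option autoImplicit false
set_option linter.unusedSectionVars false

namespace Pool.Agent.X156.LD

open Module

section basic

variable {K : Type*} [Field K] {G : Type*} [Group G] {V : Type*} [AddCommGroup V] [Module K V]

/-- invariant subspaces -/
def Stable (ρ : Representation K G V) (X : Submodule K V) : Prop := ∀ g : G, ∀ x ∈ X, ρ g x ∈ X

/-- the vectors fixed by a subgroup -/
def fixed (ρ : Representation K G V) (H : Subgroup G) : Submodule K V where
  carrier := {x | ∀ h ∈ H, ρ h x = x}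
  add_mem' := by
    intro a b ha hb h hh
    rw [map_add, ha h hh, hb h hh]
  zero_mem' := by
    intro h _
    rw [map_zero]
  smul_mem' := by
    intro c a ha h hh
    rw [map_smul, ha h hh]

lemma mem_fixed {ρ : Representation K G V} {H : Subgroup G} {x : V} :
    x ∈ fixed ρ H ↔ ∀ h ∈ H, ρ h x = x := Iff.rfl

end basic

end Pool.Agent.X156.LD
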