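import Mathlib.NumberTheory.NumberField.Units.DirichletTheorem
import Mathlib.NumberTheory.Padics.PadicIntegers
import Mathlib.FieldTheory.IsAlgClosed.AlgebraicClosure

/-!
# Defects of Leopoldt's conjecture and relations between extension fields: definitions
-/

set_option autoImplicit false

namespace Pool.Agent.H8.LeoRel

open NumberField IsDedekindDomain Filter Topology

/-- Leopoldt's conjecture for the number field `K` and the prime `p`: the formula of the frozen
statement `S17123` for `K` and `p`. -/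
def Leopoldt (K : Type) [Field K] [NumberField K] (p : ℕ) [Fact p.Prime] : Prop :=
  ∀ (n : ℕ) (ε : Fin n → (𝓞 K)ˣ),
    (∀ i, ((ε i : 𝓞 K) - 1) ∈ (Ideal.span {((p : ℕ) : 𝓞 K)}).radical) →
    (∀ c : Fin n → ℤ, ∏ i, ε i ^ c i = 1 → c = 0) →
    ∀ (a : Fin n → PadicInt p) (m : ℕ → Fin n → ℤ),
      (∀ i, Tendsto (fun k => ((m k i : ℤ) : PadicInt p)) atTop (𝓝 (a i))) →
      (∀ N : ℕ, ∀ᶠ k in atTop,
        ((p : ℕ) : 𝓞 K) ^ N ∣ (((∏ i, ε i ^ m k i : (𝓞 K)ˣ) : 𝓞 K) - 1)) →
      a = 0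

/-- `∏ ε_i ^ a_i = 1` in all completions of `K` at the primes above `p`, for the `p`-adic integers
`a_i`: there are integers `m_{k,i} → a_i` such that `∏ ε_i ^ m_{k,i} → 1`. -/
def IsRelation (p : ℕ) [Fact p.Prime] {K : Type} [Field K] [NumberField K] {n : ℕ}
    (ε : Fin n → (𝓞 K)ˣ) (a : Fin n → ℤ_[p]) : Prop :=
  ∃ m : ℕ → Fin n → ℤ, (∀ i, Tendsto (fun k => ((m k i : ℤ) : ℤ_[p])) atTop (𝓝 (a i))) ∧
    ∀ N : ℕ, ∀ᶠ k in atTop, ((p : ℕ) : 𝓞 K) ^ N ∣ ((∏ i, ε i ^ m k i : (𝓞 K)ˣ) : 𝓞 K) - 1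

/-- The `ℤ_p`-module spanned by the relations. -/
noncomputable def relations (p : ℕ) [Fact p.Prime] {K : Type} [Field K] [NumberField K] {n : ℕ}
    (ε : Fin n → (𝓞 K)ˣ) : Submodule ℤ_[p] (Fin n → ℤ_[p]) :=
  Submodule.span ℤ_[p] {a | IsRelation p ε a}

/-- `r₁ + r₂ - 1` units which are congruent to `1` modulo all primes above `p` and multiplicatively
independent. -/
def IsFamily (p : ℕ) [Fact p.Prime] {K : Type} [Field K] [NumberField K]
    (ε : Fin (Units.rank K) → (𝓞 K)ˣ) : Prop :=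
  (∀ i, ((ε i : 𝓞 K) - 1) ∈ (Ideal.span {((p : ℕ) : 𝓞 K)}).radical) ∧
    ∀ c : Fin (Units.rank K) → ℤ, ∏ i, ε i ^ c i = 1 → c = 0

/-- `δ` is the Leopoldt defect of `K` at `p`: there are families as in `IsFamily`, and the module
of the relations of each of them has the rank `δ` over `ℤ_p`. -/
def IsDefect (p : ℕ) [Fact p.Prime] (K : Type) [Field K] [NumberField K] (δ : ℕ) : Prop :=
  (∃ ε : Fin (Units.rank K) → (𝓞 K)ˣ, IsFamily p ε) ∧
    ∀ ε : Fin (Units.rank K) → (𝓞 K)ˣ, IsFamily p ε → Module.finrank ℤ_[p] (relations p ε) = δ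

/-- The number of the `K`-embeddings of `F` in the algebraic closure of `K` which are fixed by `σ`:
the value at `σ` of the character of the permutation representation belonging to `F`. -/
noncomputable def fixedEmbeddings (K F : Type) [Field K] [Field F] [Algebra K F]
    (σ : Gal(AlgebraicClosure K/K)) : ℕ :=
  Nat.card {i : F →ₐ[K] AlgebraicClosure K // ∀ x, σ (i x) = i x}

/-- `F` has no automorphism except the identity. -/
def NoAutomorphisms (F : Type) [Field F] : Prop :=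
  ∀ (τ : F ≃+* F) (x : F), τ x = x

/-- `F` has at most one prime ideal of norm `≤ b`. -/
def AtMostOneSmallPrime (b : ℕ) (F : Type) [Field F] [NumberField F] : Prop :=
  ∀ w w' : HeightOneSpectrum (𝓞 F),
    Ideal.absNorm w.asIdeal ≤ b → Ideal.absNorm w'.asIdeal ≤ b → w = w'

end Pool.Agent.H8.LeoRel
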