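import Pool.Agent.H8.LD.Desc

/-!
# The defect as a mean value of a character
-/

set_option autoImplicit false
set_option linter.unusedSectionVars false

namespace Pool.Agent.H8.LD

open NumberField Module TensorProduct Pool.Agent.W289.SL Pool.Agent.W332.SL6 Pool.Agent.X328.LP
  Pool.Agent.X156.LD

variable {p : ℕ} [hp : Fact p.Prime]

/-- the kernel of the logarithms and embeddings of fields -/
lemma map_push_le {L : ℂ_[p] → ℂ_[p]} (hL : IsIwasawaLog p L) {E E' : Type} [Field E]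
    [NumberField E] [Field E'] [NumberField E'] (f : E →+* E') :
    (KQ hL E).map ((push f).restrictScalars ℚ_[p] : UM p E →ₗ[ℚ_[p]] UM p E') ≤ KQ hL E' := by
  rintro _ ⟨x, ⟨hx, hx'⟩, rfl⟩
  refine ⟨?_, fun σ => ?_⟩
  · have h1 : UQ p E ≤ (UQ p E').comap
        ((push f).restrictScalars ℚ_[p] : UM p E →ₗ[ℚ_[p]] UM p E') := by
      unfold UQ
      rw [Submodule.span_le]
      rintro _ ⟨u, rfl⟩
      exact Submodule.subset_span ⟨uMap f u, rfl⟩
    exact h1 hx
  · change logLin hL σ (push f x) = 0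
    rw [logLin_push]
    exact hx' _

/-- isomorphic fields -/
lemma finrank_le {L : ℂ_[p] → ℂ_[p]} (hL : IsIwasawaLog p L) {E E' : Type} [Field E]
    [NumberField E] [Field E'] [NumberField E'] (f : E →+* E') :
    finrank ℚ_[p] (KQ hL E) ≤ finrank ℚ_[p] (KQ hL E') := by
  have h1 := (Submodule.equivMapOfInjective
    ((push f).restrictScalars ℚ_[p] : UM p E →ₗ[ℚ_[p]] UM p E') (push_inj f) (KQ hL E)).finrank_eq
  rw [h1]
  have : FiniteDimensional ℚ_[p] (KQ hL E') :=
    Submodule.finiteDimensional_of_le (KQ_le hL)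
  exact Submodule.finrank_mono (map_push_le hL f)

lemma finrank_iso {L : ℂ_[p] → ℂ_[p]} (hL : IsIwasawaLog p L) {E E' : Type} [Field E]
    [NumberField E] [Field E'] [NumberField E'] (f : E ≃+* E') :
    finrank ℚ_[p] (KQ hL E) = finrank ℚ_[p] (KQ hL E') :=
  le_antisymm (finrank_le hL (f : E →+* E')) (finrank_le hL (f.symm : E' →+* E))

instance {L : ℂ_[p] → ℂ_[p]} (hL : IsIwasawaLog p L) {E : Type} [Field E] [NumberField E] :
    FiniteDimensional ℚ_[p] (KQ hL E) := Submodule.finiteDimensional_of_le (KQ_le hL)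

section
variable {K N F : Type} [Field K] [NumberField K] [Field N] [NumberField N] [Algebra K N]
  [Field F] [NumberField F] [Algebra K F]

theorem mem_fixing {g : N ≃ₐ[K] N} {i : F →ₐ[K] N} :
    g ∈ i.fieldRange.fixingSubgroup ↔ (g : N →ₐ[K] N).comp i = i := by
  constructor
  · intro h
    ext x
    exact h ⟨i x, ⟨x, rfl⟩⟩
  · rintro h ⟨_, ⟨x, rfl⟩⟩
    exact DFunLike.congr_fun h x

/-- the defect of a subfield of a Galois extension -/
theorem finrank_emb [IsGalois K N] {L : ℂ_[p] → ℂ_[p]} (hL : IsIwasawaLog p L) (i : F →ₐ[K] N) :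
    finrank ℚ_[p] (KQ hL F) =
      finrank ℚ_[p] (fixed (kerRep hL K N) i.fieldRange.fixingSubgroup) := by
  have hfd : FiniteDimensional K N := Module.Finite.of_restrictScalars_finite ℚ K N
  rw [← finrank_fix', ← finrank_fix]
  have h1 : IntermediateField.fixedField i.fieldRange.fixingSubgroup = i.fieldRange :=
    IsGalois.fixedField_fixingSubgroup _
  let e : F ≃+* IntermediateField.fixedField i.fieldRange.fixingSubgroup :=
    ((AlgEquiv.ofInjectiveField i).toRingEquiv).trans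
      (IntermediateField.equivOfEq h1.symm).toRingEquiv
  exact finrank_iso hL e

/-- **The defect as a mean value.** -/
theorem rank_sum [IsGalois K N] {L : ℂ_[p] → ℂ_[p]} (hL : IsIwasawaLog p L)
    (hcard : Nat.card (F →ₐ[K] N) = finrank K F) :
    (Nat.card (N ≃ₐ[K] N) : ℚ_[p]) * (finrank ℚ_[p] (KQ hL F) : ℚ_[p]) =
      ∑ g : N ≃ₐ[K] N, (kerRep hL K N).character g *
        (Nat.card {i : F →ₐ[K] N // (g : N →ₐ[K] N).comp i = i} : ℚ_[p]) := by
  classical
  have hfd : FiniteDimensional K N := Module.Finite.of_restrictScalars_finite ℚ K N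
  have hfdF : FiniteDimensional K F := Module.Finite.of_restrictScalars_finite ℚ K F
  have hfe : Finite (F →ₐ[K] N) := inferInstance
  have := Fintype.ofFinite (F →ₐ[K] N)
  have key : ∀ i : F →ₐ[K] N, (Nat.card i.fieldRange.fixingSubgroup : ℚ_[p]) *
      (finrank ℚ_[p] (KQ hL F) : ℚ_[p]) = ∑ g : N ≃ₐ[K] N,
        if (g : N →ₐ[K] N).comp i = i then (kerRep hL K N).character g else 0 := by
    intro i
    set H := i.fieldRange.fixingSubgroup with hH
    have hFH : Fintype H := Fintype.ofFinite H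
    have hc0 : (Nat.card H : ℚ_[p]) ≠ 0 := by exact_mod_cast Nat.card_pos.ne'
    let _ : Invertible (Nat.card H : ℚ_[p]) := invertibleOfNonzero hc0
    have h1 := Representation.card_inv_mul_sum_char_eq_finrank ((kerRep hL K N).comp H.subtype)
    have h0 : Representation.invariants ((kerRep hL K N).comp H.subtype) =
        fixed (kerRep hL K N) H := by
      ext x
      constructor
      · intro h g hg
        exact h ⟨g, hg⟩
      · rintro h ⟨g, hg⟩
        exact h g hg
    rw [h0, ← finrank_emb hL i] at h1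
    rw [← h1, ← mul_assoc, mul_inv_cancel₀ hc0, one_mul, ← Finset.sum_filter]
    have h2 : ∀ g : N ≃ₐ[K] N, g ∈ Finset.univ.filter (fun g : N ≃ₐ[K] N =>
        (g : N →ₐ[K] N).comp i = i) ↔ g ∈ H := by
      intro g
      rw [Finset.mem_filter, hH, mem_fixing]
      simp
    rw [Finset.sum_subtype _ h2 (fun g => (kerRep hL K N).character g)]
    rfl
  have hstab : ∀ i : F →ₐ[K] N, (finrank K F) * Nat.card i.fieldRange.fixingSubgroup =
      Nat.card (N ≃ₐ[K] N) := by
    intro i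
    rw [IsGalois.card_fixingSubgroup_eq_finrank, IsGalois.card_aut_eq_finrank,
      ← Module.finrank_mul_finrank K i.fieldRange N]
    congr 1
    exact (AlgEquiv.ofInjectiveField i).toLinearEquiv.finrank_eq
  have h3 : ∀ g : N ≃ₐ[K] N, (Nat.card {i : F →ₐ[K] N // (g : N →ₐ[K] N).comp i = i} : ℚ_[p]) =
      ∑ i : F →ₐ[K] N, if (g : N →ₐ[K] N).comp i = i then 1 else 0 := by
    intro g
    rw [Finset.sum_boole, Nat.card_eq_fintype_card, Fintype.card_subtype]
  simp only [h3, Finset.mul_sum, mul_ite, mul_one, mul_zero]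
  rw [Finset.sum_comm, ← Finset.sum_congr rfl fun i _ => key i, ← Finset.sum_mul]
  congr 1
  have hF0 : (finrank K F : ℚ_[p]) ≠ 0 := by exact_mod_cast Module.finrank_pos.ne'
  have h4 : ∀ i : F →ₐ[K] N, (Nat.card i.fieldRange.fixingSubgroup : ℚ_[p]) =
      (Nat.card (N ≃ₐ[K] N) : ℚ_[p]) / (finrank K F : ℚ_[p]) := by
    intro i
    rw [eq_div_iff hF0, ← hstab i]
    push_cast
    ring
  rw [Finset.sum_congr rfl fun i _ => h4 i, Finset.sum_const, Finset.card_univ,
    ← Nat.card_eq_fintype_card, hcard, nsmul_eq_mul]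
  field_simp

end

/-- `∏ ε_i ^ a_i = 1` forces `a = 0`, for the units congruent to `1` above `p` which are
independent over `ℤ`: the formula of `S17123` -/
def Leopoldt (K : Type) [Field K] [NumberField K] (p : ℕ) [Fact p.Prime] : Prop :=
  ∀ (n : ℕ) (ε : Fin n → (𝓞 K)ˣ),
    (∀ i, ((ε i : 𝓞 K) - 1) ∈ (Ideal.span {((p : ℕ) : 𝓞 K)}).radical) →
    (∀ c : Fin n → ℤ, ∏ i, ε i ^ c i = 1 → c = 0) →
    ∀ (a : Fin n → PadicInt p) (m : ℕ → Fin n → ℤ),
      (∀ i, Filter.Tendsto (fun k => ((m k i : ℤ) : PadicInt p)) Filter.atTop (nhds (a i))) →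
      (∀ N : ℕ, ∀ᶠ k in Filter.atTop,
        ((p : ℕ) : 𝓞 K) ^ N ∣ (((∏ i, ε i ^ m k i : (𝓞 K)ˣ) : 𝓞 K) - 1)) →
      a = 0

lemma relations_eq_bot {K : Type} [Field K] [NumberField K] (h : Leopoldt K p) {n : ℕ}
    (ε : Fin n → (𝓞 K)ˣ)
    (h1 : ∀ i, ((ε i : 𝓞 K) - 1) ∈ (Ideal.span {((p : ℕ) : 𝓞 K)}).radical)
    (h2 : ∀ c : Fin n → ℤ, ∏ i, ε i ^ c i = 1 → c = 0) : relations p ε = ⊥ := by
  unfold relations
  rw [Submodule.span_eq_bot]
  rintro a ⟨m, hm, hdiv⟩
  exact h n ε h1 h2 a m hm hdiv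

lemma isDefect_unique {K : Type} [Field K] [NumberField K] {δ δ' : ℕ} (h : IsDefect p K δ)
    (h' : IsDefect p K δ') : δ = δ' := by
  obtain ⟨ε, hε⟩ := h.1
  rw [← h.2 ε hε, h'.2 ε hε]

theorem leopoldt_iff_defect {K : Type} [Field K] [NumberField K] :
    Leopoldt K p ↔ IsDefect p K 0 := by
  constructor
  · intro h
    refine ⟨exists_family p K, fun ε hε => ?_⟩
    rw [relations_eq_bot h ε hε.1 hε.2]
    exact finrank_bot ℤ_[p] _
  · intro h n ε _ hind a m hma hdiv
    obtain ⟨L, hL⟩ := exists_iwasawaLog p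
    have h1 : finrank ℚ_[p] (KQ hL K) = 0 := isDefect_unique (isDefect hL) h
    have h2 : KQ hL K = ⊥ := Submodule.finrank_eq_zero.1 h1
    have h3 : (fun i => ((a i : ℤ_[p]) : ℚ_[p])) ∈ (KQ hL K).comap (Phi ε) := by
      rw [mem_comap]
      intro σ
      exact Pool.Agent.Y944.LC.rel_of_lim hL n ε a m hma hdiv σ
    rw [Submodule.mem_comap, h2, Submodule.mem_bot] at h3
    have h4 := Phi_inj (p := p) ε hind (h3.trans (map_zero _).symm)
    funext i
    exact PadicInt.coe_eq_zero.1 (congrFun h4 i)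

theorem isDefect_iff {L : ℂ_[p] → ℂ_[p]} (hL : IsIwasawaLog p L) {K : Type} [Field K]
    [NumberField K] {δ : ℕ} : IsDefect p K δ ↔ δ = finrank ℚ_[p] (KQ hL K) :=
  ⟨fun h => isDefect_unique h (isDefect hL), fun h => h ▸ isDefect hL⟩

end Pool.Agent.H8.LD
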