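import Pool.Agent.H8.LD.Iso
import Pool.Agent.H8.LD.Defs
import Pool.Agent.H26.K4.Tower
import Pool.Agent.H26.Lib.R_pool_sql_team_seeded_3997aac3.Q5.BR.Rank2

/-!
# The defects in a relation between extension fields
-/

set_option autoImplicit false
set_option linter.unusedSectionVars false

namespace Pool.Agent.H8.LD

open NumberField Module Pool.Agent.W289.SL Pool.Agent.W353.NF Pool.Agent.W401.Cheb
  Pool.Agent.Q5.BR Pool.Agent.X156.LD

section
variable {K : Type} [Field K] [NumberField K] {p : ℕ} [hp : Fact p.Prime]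

/-- **The relation between the defects**, homogeneous form. -/
theorem defect_relation₀ {L : ℂ_[p] → ℂ_[p]} (hL : IsIwasawaLog p L) {ι : Type} [Fintype ι]
    {X : ι → Ext K} {n : ι → ℤ}
    (h : ∀ σ : GK K, ∑ j, n j * (fixn K (X j).F σ : ℤ) = 0) :
    ∑ j, n j * (finrank ℚ_[p] (KQ hL (X j).F) : ℤ) = 0 := by
  classical
  let N : IntermediateField K (AlgebraicClosure K) :=
    ⨆ j, IntermediateField.normalClosure K (X j).F (AlgebraicClosure K)
  have hfd1 : ∀ j, FiniteDimensional K (X j).F := fun j => inferInstance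
  have hfd : FiniteDimensional K N := by
    have : ∀ j, FiniteDimensional K (IntermediateField.normalClosure K (X j).F (AlgebraicClosure K)) :=
      fun j => inferInstance
    exact IntermediateField.finiteDimensional_iSup_of_finite
  have hnor : Normal K N := by
    have : ∀ j, Normal K (IntermediateField.normalClosure K (X j).F (AlgebraicClosure K)) :=
      fun j => inferInstance
    exact IntermediateField.normal_iSup (F := K) (K := AlgebraicClosure K)
      (t := fun j => IntermediateField.normalClosure K (X j).F (AlgebraicClosure K))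
  have hgal : IsGalois K N := {}
  have hnf : NumberField N := NumberField.of_module_finite K N
  have hle : ∀ j, ∀ i : (X j).F →ₐ[K] AlgebraicClosure K, i.fieldRange ≤ N := fun j i =>
    (AlgHom.fieldRange_le_normalClosure i).trans (le_iSup
      (fun j => IntermediateField.normalClosure K (X j).F (AlgebraicClosure K)) j)
  have hcard : ∀ j, Nat.card ((X j).F →ₐ[K] N) = Module.finrank K (X j).F := by
    intro j
    rw [Nat.card_congr (embEquiv (X j).F N (hle j)), Nat.card_eq_fintype_card, AlgHom.card]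
  have hr := fun j => rank_sum (K := K) (N := N) (F := (X j).F) hL (hcard j)
  have hfix : ∀ g : N ≃ₐ[K] N, ∑ j, (n j : ℚ_[p]) *
      (Nat.card {i : (X j).F →ₐ[K] N // (g : N →ₐ[K] N).comp i = i} : ℚ_[p]) = 0 := by
    intro g
    obtain ⟨σ, rfl⟩ := AlgEquiv.restrictNormalHom_surjective (AlgebraicClosure K) (K₁ := N) g
    have h1 := congrArg (fun z : ℤ => (z : ℚ_[p])) (h σ)
    push_cast at h1
    rw [← h1]
    refine Finset.sum_congr rfl fun j _ => ?_
    rw [← card_fixed (X j).F N (hle j) σ]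
    rfl
  have hG : (Nat.card (N ≃ₐ[K] N) : ℚ_[p]) ≠ 0 := by exact_mod_cast Nat.card_pos.ne'
  have key : (Nat.card (N ≃ₐ[K] N) : ℚ_[p]) *
      ∑ j, (n j : ℚ_[p]) * (finrank ℚ_[p] (KQ hL (X j).F) : ℚ_[p]) = 0 := by
    have h1 : ∀ j, (Nat.card (N ≃ₐ[K] N) : ℚ_[p]) *
        ((n j : ℚ_[p]) * (finrank ℚ_[p] (KQ hL (X j).F) : ℚ_[p])) =
        ∑ g : N ≃ₐ[K] N, (n j : ℚ_[p]) * ((kerRep hL K N).character g *
          (Nat.card {i : (X j).F →ₐ[K] N // (g : N →ₐ[K] N).comp i = i} : ℚ_[p])) := by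
      intro j
      rw [mul_left_comm, hr j, Finset.mul_sum]
    rw [Finset.mul_sum, Finset.sum_congr rfl fun j _ => h1 j, Finset.sum_comm]
    refine Finset.sum_eq_zero fun g _ => ?_
    have h2 : ∑ j, (n j : ℚ_[p]) * ((kerRep hL K N).character g *
        (Nat.card {i : (X j).F →ₐ[K] N // (g : N →ₐ[K] N).comp i = i} : ℚ_[p])) =
        (kerRep hL K N).character g * ∑ j, (n j : ℚ_[p]) *
          (Nat.card {i : (X j).F →ₐ[K] N // (g : N →ₐ[K] N).comp i = i} : ℚ_[p]) := by
      rw [Finset.mul_sum]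
      exact Finset.sum_congr rfl fun j _ => by ring
    rw [h2, hfix g, mul_zero]
  have h2 := (mul_eq_zero.1 key).resolve_left hG
  exact_mod_cast h2

theorem fixn_self (σ : GK K) : fixn K K σ = 1 := by
  unfold fixn
  rw [Nat.card_eq_one_iff_unique]
  refine ⟨⟨fun a b => Subtype.ext (Subsingleton.elim _ _)⟩, ⟨⟨Algebra.ofId K _, ?_⟩⟩⟩
  exact Subsingleton.elim _ _

/-- **The relation between the defects.** -/
theorem defect_relation {L : ℂ_[p] → ℂ_[p]} (hL : IsIwasawaLog p L) {ι : Type} [Fintype ι]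
    {X : ι → Ext K} {n : ι → ℤ} {m : ℤ}
    (h : ∀ σ : GK K, ∑ j, n j * (fixn K (X j).F σ : ℤ) = m) :
    m * (finrank ℚ_[p] (KQ hL K) : ℤ) = ∑ j, n j * (finrank ℚ_[p] (KQ hL (X j).F) : ℤ) := by
  classical
  let Z : Option ι → Ext K := fun o => match o with
    | none => Ext.mk K
    | some j => Ext.mk (X j).F
  let c : Option ι → ℤ := fun o => match o with
    | none => -m
    | some j => n j
  have h1 := defect_relation₀ hL (X := Z) (n := c) (fun σ => by
    rw [Fintype.sum_option]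
    change -m * (fixn K K σ : ℤ) + ∑ j, n j * (fixn K (X j).F σ : ℤ) = 0
    rw [h σ, fixn_self]
    push_cast
    ring)
  rw [Fintype.sum_option] at h1
  change -m * (finrank ℚ_[p] (KQ hL K) : ℤ) +
    ∑ j, n j * (finrank ℚ_[p] (KQ hL (X j).F) : ℤ) = 0 at h1
  linarith

end

end Pool.Agent.H8.LD

namespace Pool.Agent.H8.LeoRel

open NumberField Module Pool.Agent.W289.SL Pool.Agent.W353.NF Pool.Agent.W401.Cheb
  Pool.Agent.Q5.BR Pool.Agent.X156.LD

theorem fixedEmbeddings_eq {K : Type} [Field K] [NumberField K] (F : Type) [Field F]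
    [NumberField F] [Algebra K F] (σ : GK K) : fixedEmbeddings K F σ = fixn K F σ := by
  unfold fixedEmbeddings fixn
  refine Nat.card_congr (Equiv.subtypeEquivRight fun i => ?_)
  rw [act_apply]
  exact ⟨fun h => AlgHom.ext h, fun h x => congrArg (fun f => f x) h⟩

theorem leopoldt_iff {K : Type} [Field K] [NumberField K] {p : ℕ} [Fact p.Prime] :
    Leopoldt K p ↔ IsDefect p K 0 := Pool.Agent.H8.LD.leopoldt_iff_defect

theorem isDefect_iff {p : ℕ} [Fact p.Prime] {L : ℂ_[p] → ℂ_[p]} (hL : IsIwasawaLog p L) {K : Type}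
    [Field K] [NumberField K] {δ : ℕ} : IsDefect p K δ ↔ δ = finrank ℚ_[p] (KQ hL K) :=
  Pool.Agent.H8.LD.isDefect_iff hL

/-- **The relation between the defects.** -/
theorem defect_of_relation {K : Type} [Field K] [NumberField K] {ι : Type} [Fintype ι]
    {F : ι → Type} [∀ j, Field (F j)] [∀ j, NumberField (F j)] [∀ j, Algebra K (F j)]
    {a : ι → ℤ} {m : ℤ}
    (h : ∀ σ : Gal(AlgebraicClosure K/K), ∑ j, a j * (fixedEmbeddings K (F j) σ : ℤ) = m)
    {p : ℕ} [Fact p.Prime] {δ : ℕ} {d : ι → ℕ} (hδ : IsDefect p K δ)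
    (hd : ∀ j, IsDefect p (F j) (d j)) : m * (δ : ℤ) = ∑ j, a j * (d j : ℤ) := by
  obtain ⟨L, hL⟩ := exists_iwasawaLog p
  have h1 := Pool.Agent.H8.LD.defect_relation hL (K := K) (X := fun j => Ext.mk (F j)) (n := a)
    (m := m) (fun σ => by
      rw [← h σ]
      exact Finset.sum_congr rfl fun j _ => by rw [fixedEmbeddings_eq])
  rw [(isDefect_iff hL).1 hδ, h1]
  exact Finset.sum_congr rfl fun j _ => by rw [(isDefect_iff hL).1 (hd j)]

/-- **The relation.** -/
theorem exists_rel (K : Type) [Field K] [NumberField K] (b : ℕ) :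
    ∃ (ι : Type) (_ : Fintype ι) (F : ι → Type) (_ : ∀ j, Field (F j))
      (_ : ∀ j, NumberField (F j)) (_ : ∀ j, Algebra K (F j)) (a : ι → ℤ),
      (∀ j, NoAutomorphisms (F j) ∧ AtMostOneSmallPrime b (F j)) ∧
      ∀ σ : Gal(AlgebraicClosure K/K), ∑ j, a j * (fixedEmbeddings K (F j) σ : ℤ) = 1 := by
  obtain ⟨ι, _, Y, n, h1, h2, h3⟩ := Pool.Agent.H26.K4.rigid_small_relation K b
  refine ⟨ι, inferInstance, fun j => (Y j).F, fun j => inferInstance, fun j => inferInstance,
    fun j => inferInstance, n, fun j => ⟨h1 j, h2 j⟩, fun σ => ?_⟩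
  rw [← h3 σ]
  exact Finset.sum_congr rfl fun j _ => by rw [fixedEmbeddings_eq]

end Pool.Agent.H8.LeoRel
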